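import Pool.Agent.H79.QF.Targets

/-!
Quantum algorithms which ask for the values of gates (MP_0f8dca_lc): the row AVX.
Page H79_QF.md.
-/

set_option autoImplicit false

open Finset Matrix Pool.Agent.H1.Mono

namespace Pool.Agent.H36.QF

open Pool.Agent.H79.QF

private theorem wt_nonneg {s : ℕ} (Q : GQ s) (v : Fin s → Prop) (j : ℕ) (D : Fin s → Prop) :
    0 ≤ Q.wt v j D := by
  unfold GQ.wt
  refine Finset.sum_nonneg fun i _ => ?_
  split_ifs
  · positivity
  · exact le_rfl

private theorem wt_sub {s : ℕ} (Q : GQ s) (v : Fin s → Prop) (j : ℕ) (D D1 D2 : Fin s → Prop)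
    (h : ∀ u, D u → D1 u ∨ D2 u) : Q.wt v j D ≤ Q.wt v j D1 + Q.wt v j D2 := by
  unfold GQ.wt
  rw [← Finset.sum_add_distrib]
  refine Finset.sum_le_sum fun i _ => ?_
  have h0 : 0 ≤ ‖Q.state v j i‖ ^ 2 := by positivity
  split_ifs with h1 h2 h3 h3 h2 h3 h3
  · linarith
  · linarith
  · linarith
  · exfalso
    obtain ⟨u, hu, hD⟩ := h1
    rcases h u hD with h4 | h4
    · exact h2 ⟨u, hu, h4⟩
    · exact h3 ⟨u, hu, h4⟩
  · linarith
  · linarith
  · linarith
  · linarith

private theorem sumE (hNRM : T_NRM) {s : ℕ} (Q : GQ s) {X : Type} [Fintype X]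
    (v : Fin s → Prop) (j P R : ℕ) (hP : Q.Par P) (E : X → Fin s → Prop)
    (hE : ∀ u, R * Nat.card {x : X // E x u} ≤ Fintype.card X) :
    (R : ℝ) * ∑ x, Q.wt v j (E x) ≤ P * Fintype.card X := by
  classical
  have h1 : ∀ i, (R : ℝ) * ∑ x, (if ∃ u ∈ Q.ask i, E x u then ‖Q.state v j i‖ ^ 2 else 0) ≤
      P * Fintype.card X * ‖Q.state v j i‖ ^ 2 := by
    intro i
    set c : ℝ := ‖Q.state v j i‖ ^ 2 with hc
    have hc0 : 0 ≤ c := by positivity
    have h2 : ∑ x, (if ∃ u ∈ Q.ask i, E x u then c else 0) ≤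
        ∑ u ∈ Q.ask i, ((Nat.card {x : X // E x u} : ℕ) : ℝ) * c := by
      calc ∑ x, (if ∃ u ∈ Q.ask i, E x u then c else 0)
          ≤ ∑ x, ∑ u ∈ Q.ask i, (if E x u then c else 0) := by
            refine Finset.sum_le_sum fun x _ => ?_
            have h5 : ∀ u ∈ Q.ask i, 0 ≤ (if E x u then c else 0) := by
              intro u _
              split_ifs
              · exact hc0
              · exact le_rfl
            split_ifs with h3
            · obtain ⟨u, hu, hx⟩ := h3
              calc c = if E x u then c else 0 := (if_pos hx).symm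
                _ ≤ _ := Finset.single_le_sum h5 hu
            · exact Finset.sum_nonneg h5
        _ = ∑ u ∈ Q.ask i, ∑ x, (if E x u then c else 0) := Finset.sum_comm
        _ = _ := by
            refine Finset.sum_congr rfl fun u _ => ?_
            rw [← Finset.sum_filter, Finset.sum_const, nsmul_eq_mul, Nat.card_eq_fintype_card,
              Fintype.card_subtype]
    calc (R : ℝ) * ∑ x, (if ∃ u ∈ Q.ask i, E x u then c else 0)
        ≤ R * ∑ u ∈ Q.ask i, ((Nat.card {x : X // E x u} : ℕ) : ℝ) * c :=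
          mul_le_mul_of_nonneg_left h2 (Nat.cast_nonneg _)
      _ = ∑ u ∈ Q.ask i, ((R * Nat.card {x : X // E x u} : ℕ) : ℝ) * c := by
          rw [Finset.mul_sum]
          refine Finset.sum_congr rfl fun u _ => ?_
          push_cast
          ring
      _ ≤ ∑ u ∈ Q.ask i, (Fintype.card X : ℝ) * c := by
          refine Finset.sum_le_sum fun u _ => mul_le_mul_of_nonneg_right ?_ hc0
          exact_mod_cast hE u
      _ = ((Q.ask i).card : ℝ) * (Fintype.card X * c) := by
          rw [Finset.sum_const, nsmul_eq_mul]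
      _ ≤ (P : ℝ) * (Fintype.card X * c) := by
          refine mul_le_mul_of_nonneg_right ?_ (by positivity)
          exact_mod_cast hP i
      _ = P * Fintype.card X * c := by ring
  have h2 : ∑ x, Q.wt v j (E x) =
      ∑ i, ∑ x, (if ∃ u ∈ Q.ask i, E x u then ‖Q.state v j i‖ ^ 2 else 0) := by
    rw [Finset.sum_comm]
    refine Finset.sum_congr rfl fun x _ => ?_
    unfold GQ.wt
    refine Finset.sum_congr rfl fun i _ => ?_
    split_ifs <;> rfl
  rw [h2, Finset.mul_sum]
  calc _ ≤ ∑ i, (P : ℝ) * Fintype.card X * ‖Q.state v j i‖ ^ 2 :=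
        Finset.sum_le_sum fun i _ => h1 i
    _ = P * Fintype.card X := by rw [← Finset.mul_sum, hNRM, mul_one]

private theorem cs {X : Type} [Fintype X] (f : X → ℝ) (hf : ∀ x, 0 ≤ f x) :
    ∑ x, Real.sqrt (f x) ≤ Real.sqrt (Fintype.card X * ∑ x, f x) := by
  refine Real.le_sqrt_of_sq_le ?_
  have h := sq_sum_le_card_mul_sum_sq (s := (Finset.univ : Finset X))
    (f := fun x => Real.sqrt (f x))
  refine h.trans (le_of_eq ?_)
  rw [Finset.card_univ]
  congr 1
  exact Finset.sum_congr rfl fun x _ => Real.sq_sqrt (hf x)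

private theorem sqrt_add_le' (a b : ℝ) (ha : 0 ≤ a) (hb : 0 ≤ b) :
    Real.sqrt (a + b) ≤ Real.sqrt a + Real.sqrt b := by
  refine Real.sqrt_le_iff.2 ⟨by positivity, ?_⟩
  have h1 := Real.sq_sqrt ha
  have h2 := Real.sq_sqrt hb
  have h3 : 0 ≤ Real.sqrt a * Real.sqrt b := by positivity
  nlinarith

theorem pf_AVX (hHYB : T_HYB) (hPRB : T_PRB) (hNRM : T_NRM) : T_AVX := by
  intro R s Ω X _ _ _ K Q P ε hR hP hε ha hp hT y t ht
  by_contra hcon
  push Not at hcon
  set g : ℝ := 1 - 2 * ε with hg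
  have hg0 : 0 < g := by rw [hg]; linarith
  set v := K.a y t with hv
  set B' : Fin s → Prop := fun u => ¬ K.a y t u ∧ K.B y t u with hB'
  set E : X → Fin s → Prop := fun x u => ¬ K.B y t u ∧ K.p y t x u with hE
  have hR0 : (0 : ℝ) < R := by exact_mod_cast hR
  have hX0 : (0 : ℝ) < Fintype.card X := by exact_mod_cast Fintype.card_pos
  -- the exceptional x
  have hEc : ∀ u, R * Nat.card {x : X // E x u} ≤ Fintype.card X := by
    intro u
    by_cases hB : K.B y t u
    · have h1 : Nat.card {x : X // E x u} = 0 := by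
        rw [Nat.card_eq_zero]
        exact Or.inl ⟨fun x => x.2.1 hB⟩
      rw [h1]; simp
    · have h2 := hB
      unfold Ch.B at h2
      push Not at h2
      obtain ⟨h, h3⟩ := h2
      have h4 := K.zo y ⟨t, h⟩ u h3
      refine le_trans (Nat.mul_le_mul_left R ?_) h4
      refine Nat.card_le_card_of_injective (fun x => ⟨x.1, x.2.2⟩) ?_
      intro x x' hxx
      have h5 := Subtype.mk.inj hxx
      exact Subtype.ext h5
  -- for each x
  have h1 : ∀ x, g / 4 ≤ ∑ j ∈ range Q.T, (Real.sqrt (Q.wt v j B') +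
      Real.sqrt (Q.wt v j (E x))) := by
    intro x
    have h2 := hPRB s Q v (K.p y t x)
    have h3 := hHYB s Q v (K.p y t x) Q.T
    have h4 := ha y t ht
    have h5 := hp y t ht x
    have h6 : g ≤ |Q.prob v - Q.prob (K.p y t x)| := by
      rw [abs_sub_comm]
      refine le_trans ?_ (le_abs_self _)
      rw [hg, hv]; linarith
    have h7 : ∑ l ∈ range Q.T, Real.sqrt (Q.wt v l fun u => ¬ (v u ↔ K.p y t x u)) ≤
        ∑ j ∈ range Q.T, (Real.sqrt (Q.wt v j B') + Real.sqrt (Q.wt v j (E x))) := by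
      refine Finset.sum_le_sum fun j _ => ?_
      refine le_trans (Real.sqrt_le_sqrt (wt_sub Q v j _ B' (E x) ?_))
        (sqrt_add_le' _ _ (wt_nonneg _ _ _ _) (wt_nonneg _ _ _ _))
      intro u hu
      have hle := K.le y t x u
      by_cases hau : K.a y t u
      · exact absurd ⟨fun _ => hle hau, fun _ => hau⟩ hu
      · have hpu : K.p y t x u := by
          by_contra hnp
          exact hu ⟨fun h => absurd h hau, fun h => absurd h hnp⟩
        by_cases hBu : K.B y t u
        · exact Or.inl ⟨hau, hBu⟩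
        · exact Or.inr ⟨hBu, hpu⟩
    linarith
  -- average
  have h2 : (Fintype.card X : ℝ) * (g / 4) ≤ Fintype.card X * ∑ j ∈ range Q.T,
      Real.sqrt (Q.wt v j B') + ∑ j ∈ range Q.T, ∑ x, Real.sqrt (Q.wt v j (E x)) := by
    calc (Fintype.card X : ℝ) * (g / 4) = ∑ _x : X, g / 4 := by
          rw [Finset.sum_const, nsmul_eq_mul, Finset.card_univ]
      _ ≤ ∑ x, ∑ j ∈ range Q.T, (Real.sqrt (Q.wt v j B') + Real.sqrt (Q.wt v j (E x))) :=
          Finset.sum_le_sum fun x _ => h1 x
      _ = _ := by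
          simp only [Finset.sum_add_distrib]
          rw [Finset.sum_const, nsmul_eq_mul, Finset.card_univ]
          congr 1
          exact Finset.sum_comm
  have h3 : ∀ j, ∑ x, Real.sqrt (Q.wt v j (E x)) ≤ Fintype.card X * Real.sqrt (P / R) := by
    intro j
    refine (cs _ fun x => wt_nonneg _ _ _ _).trans ?_
    have h4 := sumE hNRM Q v j P R hP E hEc
    have h5 : ∑ x, Q.wt v j (E x) ≤ P * Fintype.card X / R := by
      rw [le_div_iff₀ hR0]
      linarith
    calc Real.sqrt (Fintype.card X * ∑ x, Q.wt v j (E x))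
        ≤ Real.sqrt (Fintype.card X * (P * Fintype.card X / R)) :=
          Real.sqrt_le_sqrt (mul_le_mul_of_nonneg_left h5 hX0.le)
      _ = Real.sqrt ((Fintype.card X : ℝ) ^ 2 * (P / R)) := by
          congr 1; ring
      _ = _ := by
          rw [Real.sqrt_mul (by positivity), Real.sqrt_sq hX0.le]
  have h4 : ∑ j ∈ range Q.T, ∑ x, Real.sqrt (Q.wt v j (E x)) ≤
      Q.T * (Fintype.card X * Real.sqrt (P / R)) := by
    calc _ ≤ ∑ _j ∈ range Q.T, (Fintype.card X * Real.sqrt (P / R)) :=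
          Finset.sum_le_sum fun j _ => h3 j
      _ = _ := by rw [Finset.sum_const, nsmul_eq_mul, Finset.card_range]
  have h5 : (Q.T : ℝ) * Real.sqrt (P / R) ≤ g / 8 := by
    have h6 : ((Q.T : ℝ) * Real.sqrt (P / R)) ^ 2 ≤ (g / 8) ^ 2 := by
      rw [mul_pow, Real.sq_sqrt (by positivity)]
      have h7 : (Q.T : ℝ) ^ 2 * (P / R) = 64 * (Q.T : ℝ) ^ 2 * P / (64 * R) := by
        field_simp
      rw [h7, div_le_iff₀ (by positivity)]
      calc 64 * (Q.T : ℝ) ^ 2 * P ≤ g ^ 2 * R := hT
        _ = (g / 8) ^ 2 * (64 * R) := by ring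
    exact (sq_le_sq₀ (by positivity) (by positivity)).1 h6
  have h6 : g / 8 ≤ ∑ j ∈ range Q.T, Real.sqrt (Q.wt v j B') := by
    have h7 : (Fintype.card X : ℝ) * (g / 4) ≤
        Fintype.card X * (∑ j ∈ range Q.T, Real.sqrt (Q.wt v j B') + g / 8) := by
      calc (Fintype.card X : ℝ) * (g / 4) ≤ _ := h2
        _ ≤ Fintype.card X * ∑ j ∈ range Q.T, Real.sqrt (Q.wt v j B') +
            Q.T * (Fintype.card X * Real.sqrt (P / R)) := by linarith
        _ = Fintype.card X * (∑ j ∈ range Q.T, Real.sqrt (Q.wt v j B') +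
            Q.T * Real.sqrt (P / R)) := by ring
        _ ≤ _ := mul_le_mul_of_nonneg_left (by linarith) hX0.le
    have h8 := le_of_mul_le_mul_left h7 hX0
    linarith
  rcases Nat.eq_zero_or_pos Q.T with hT0 | hT0
  · rw [hT0] at h6
    simp only [Finset.range_zero, Finset.sum_empty] at h6
    linarith
  · have hT1 : (0 : ℝ) < Q.T := by exact_mod_cast hT0
    have h7 : ∀ j ∈ range Q.T, Real.sqrt (Q.wt v j B') < g / (8 * Q.T) := by
      intro j hj
      rw [Real.sqrt_lt' (by positivity), div_pow, lt_div_iff₀ (by positivity)]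
      have h8 := hcon j (Finset.mem_range.1 hj)
      calc Q.wt v j B' * (8 * (Q.T : ℝ)) ^ 2 = 64 * (Q.T : ℝ) ^ 2 * Q.wt v j B' := by ring
        _ < g ^ 2 := h8
    have h8 : ∑ j ∈ range Q.T, Real.sqrt (Q.wt v j B') < ∑ _j ∈ range Q.T, g / (8 * Q.T) :=
      Finset.sum_lt_sum_of_nonempty (Finset.nonempty_range_iff.2 hT0.ne') h7
    rw [Finset.sum_const, nsmul_eq_mul, Finset.card_range] at h8
    have h9 : (Q.T : ℝ) * (g / (8 * Q.T)) = g / 8 := by field_simp
    rw [h9] at h8
    linarith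

end Pool.Agent.H36.QF
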